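import Mathlib
import Pool.Agent.H523R3.ETMul

/-!
# The Erdős–Turán problem (MP_12a1af_nt): bases with many multipliers

Let `A` be a set of positive integers, `h ≥ 2`, and let `mult A = {m | m A ⊆ A}` be its set of
multipliers (all of `A` is contained in it when `A` is closed under multiplication).

1. If every large integer is a sum of `h` elements of `A` and if `A` is closed under
multiplication, or more generally `A` is contained in a finite union of dilates `c · mult A`, or
`mult A` contains infinitely many pairwise coprime integers, then the number of representations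
of `n` as an ordered sum of `h` elements of `A` is unbounded.

2. If every multiplier `≥ n0` is a sum of `h` elements of `A`, then the product of `m` pairwise
coprime multipliers `≥ n0` has at least `m` representations.

Proof. If `b_1, …, b_m` are multipliers and `b_j = x_{j,1} + ⋯ + x_{j,h}`, then
`N = b_1 ⋯ b_m` has the representations `(N / b_j) (x_{j,1}, …, x_{j,h})`, and they differ as soon
as the integers `w_j = b_j / gcd(x_{j,1}, b_j) ≥ 2` differ. So boundedness leaves finitely many
values `w`. Every prime factor of `b_j` divides `w_j` or `x_{j,1} < b_j`; descent shows that only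
finitely many primes divide elements of `A`, and such a set is too thin to be a basis.
-/

set_option autoImplicit false

namespace Pool.Agent.Results.MP_12a1af_nt.MultiplicativeBases

open Classical in
/-- The number of ordered `h`-tuples of elements of `A` with sum `n`
(`Finset.Nat.antidiagonalTuple h n` is the set of all `v : Fin h → ℕ` with `∑ i, v i = n`). -/
noncomputable def reps (A : Set ℕ) (h n : ℕ) : ℕ :=
  ((Finset.Nat.antidiagonalTuple h n).filter (fun v => ∀ i, v i ∈ A)).card

/-- The multipliers of `A`: the integers `m` with `m A ⊆ A`. -/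
def mult (A : Set ℕ) : Set ℕ := {m | ∀ a ∈ A, m * a ∈ A}

/-- `n` is a sum of `h` elements of `A`. -/
def IsSum (A : Set ℕ) (h n : ℕ) : Prop := ∃ v : Fin h → ℕ, (∀ i, v i ∈ A) ∧ ∑ i, v i = n

theorem result (h : ℕ) (hh : 2 ≤ h) (A : Set ℕ) (h0 : 0 ∉ A) (n0 : ℕ) :
    ((∀ n, n0 ≤ n → IsSum A h n) →
      ((∀ a ∈ A, ∀ b ∈ A, a * b ∈ A) ∨
        (∃ C : Finset ℕ, ∀ a ∈ A, ∃ c ∈ C, ∃ m ∈ mult A, a = c * m) ∨
        (∃ T : Set ℕ, T ⊆ mult A ∧ T.Infinite ∧ T.Pairwise Nat.Coprime)) →
      ∀ r, ∃ n, r < reps A h n) ∧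
    ((∀ n ∈ mult A, n0 ≤ n → IsSum A h n) →
      ∀ F : Finset ℕ, (∀ b ∈ F, b ∈ mult A ∧ n0 ≤ b) →
        (∀ b ∈ F, ∀ c ∈ F, b ≠ c → Nat.Coprime b c) →
        F.card ≤ reps A h (∏ b ∈ F, b)) := by
  obtain ⟨k, rfl⟩ : ∃ k, h = k + 2 := ⟨h - 2, by omega⟩
  constructor
  · intro hb hyp
    have hb' : ∀ n ∈ Pool.Agent.H523R3.ETMul.mult A, n0 ≤ n →
        ∃ v : Fin (k + 2) → ℕ, (∀ i, v i ∈ A) ∧ ∑ i, v i = n := fun n _ hn => hb n hn
    have fin : (∃ C : Finset ℕ, ∀ a ∈ A, ∃ c ∈ C, ∃ m ∈ mult A, a = c * m) →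
        ∀ r, ∃ n, r < reps A (k + 2) n := by
      rintro ⟨C, hC⟩
      by_contra hcon
      push Not at hcon
      obtain ⟨r, hr⟩ := hcon
      obtain ⟨K, hK⟩ := Pool.Agent.H523R3.ETMul.smooth (k := k) (n0 := n0) h0 hr hb' C hC
      exact Pool.Agent.H523R3.ETMul.not_basis (n0 := n0) h0 hb hK
    rcases hyp with hyp | hyp | ⟨T, hT, hTi, hTc⟩
    · exact fin ⟨{1}, fun a ha => ⟨1, by simp, a, fun b hb => hyp a ha b hb, by simp⟩⟩
    · exact fin hyp
    · exact Pool.Agent.H523R3.ETMul.coprime_case (n0 := n0) h0 hb' T hT hTi hTc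
  · intro hb F hF hco
    exact Pool.Agent.H523R3.ETMul.coprime_bound (n0 := n0) h0 hb F hF hco

end Pool.Agent.Results.MP_12a1af_nt.MultiplicativeBases
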