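import Pool.Agent.H303R3.ET.ShiftFin

set_option autoImplicit false

/-!
# MP_12a1af_nt: no shift nearly preserves a bounded representation function

Let `A` be an infinite set of natural numbers with `a_n ≤ C n²` and `r_A ≤ K`.  Then, for every
shift `τ ≥ 1`, the set of the `n` with `r_A(n + τ) ≠ r_A(n)` has lower density at least `δ`, where
`δ > 0` depends only on `C` and `K` (neither on `A` nor on `τ`).
-/

open Filter

namespace Pool.Agent.Results.MP_12a1af_nt.ShiftGap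

/-- `r_A(n)`: the number of ordered pairs `(a, b) ∈ A × A` with `a + b = n`. -/
noncomputable def rep (A : Set ℕ) (n : ℕ) : ℕ :=
  Set.ncard {p : ℕ × ℕ | p.1 ∈ A ∧ p.2 ∈ A ∧ p.1 + p.2 = n}

/-- `elt A n` is the `n`-th element `a_n` (`n ≥ 1`) of the infinite set `A` listed increasingly. -/
noncomputable def elt (A : Set ℕ) (n : ℕ) : ℕ := Nat.nth (· ∈ A) (n - 1)

theorem uniform (C : ℝ) (K : ℕ) : ∃ δ : ℝ, 0 < δ ∧ ∀ A : Set ℕ, A.Infinite →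
    (∀ n : ℕ, 1 ≤ n → (elt A n : ℝ) ≤ C * (n : ℝ) ^ 2) → (∀ n, rep A n ≤ K) →
    ∀ τ : ℕ, 1 ≤ τ → ∀ᶠ N : ℕ in atTop,
      δ * N ≤ ({n : ℕ | n < N ∧ rep A (n + τ) ≠ rep A n}.ncard : ℝ) := by
  obtain ⟨δ, hδ, h⟩ := Pool.Agent.H303R3.ET.shift_main C K
  refine ⟨δ, hδ, fun A hA hq hK τ hτ => ?_⟩
  refine h A hA (fun n => ?_) (fun n => hK n) τ hτ
  have h1 := hq (n + 1) (by omega)
  unfold elt at h1
  rw [Nat.add_sub_cancel] at h1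
  push_cast at h1
  exact h1

/-- (1) For all `C` and `K` there is `δ > 0` such that for every infinite `A ⊆ ℕ` with
`a_n ≤ C n²` for all `n ≥ 1` and `r_A ≤ K`, and for every `τ ≥ 1`, one has
`#{n < N : r_A(n + τ) ≠ r_A(n)} ≥ δ N` for all large `N`.

(2) Hence `r_A` is unbounded for every infinite `A ⊆ ℕ` with `a_n ≤ C n²` (`n ≥ 1`) for some `C`,
such that for each `δ > 0` some shift `τ ≥ 1` satisfies `#{n < N : r_A(n + τ) ≠ r_A(n)} < δ N` for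
arbitrarily large `N`. -/
theorem result :
    (∀ (C : ℝ) (K : ℕ), ∃ δ : ℝ, 0 < δ ∧ ∀ A : Set ℕ, A.Infinite →
      (∀ n : ℕ, 1 ≤ n → (elt A n : ℝ) ≤ C * (n : ℝ) ^ 2) → (∀ n, rep A n ≤ K) →
      ∀ τ : ℕ, 1 ≤ τ → ∀ᶠ N : ℕ in atTop,
        δ * N ≤ ({n : ℕ | n < N ∧ rep A (n + τ) ≠ rep A n}.ncard : ℝ)) ∧
    (∀ A : Set ℕ, A.Infinite → (∃ C : ℝ, ∀ n : ℕ, 1 ≤ n → (elt A n : ℝ) ≤ C * (n : ℝ) ^ 2) →
      (∀ δ : ℝ, 0 < δ → ∃ τ : ℕ, 1 ≤ τ ∧ ∃ᶠ N : ℕ in atTop,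
        ({n : ℕ | n < N ∧ rep A (n + τ) ≠ rep A n}.ncard : ℝ) < δ * N) →
      ∀ K : ℕ, ∃ n : ℕ, K < rep A n) := by
  refine ⟨uniform, fun A hA hC h K => ?_⟩
  by_contra hcon
  push Not at hcon
  obtain ⟨C, hC⟩ := hC
  obtain ⟨δ, hδ, h1⟩ := uniform C K
  obtain ⟨τ, hτ, h2⟩ := h δ hδ
  have h3 := h1 A hA hC hcon τ hτ
  obtain ⟨N, hN1, hN2⟩ := (h2.and_eventually h3).exists
  exact absurd hN2 (not_le.mpr hN1)

end Pool.Agent.Results.MP_12a1af_nt.ShiftGap
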