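import Pool.Agent.H303R3.ET.SpecC

set_option autoImplicit false

/-!
# MP_12a1af_nt: representation functions close to functions with singular spectrum

Let `A` be an infinite set of natural numbers with `a_n ≤ C n²`.  If `r_A` is within mean square
distance `κ < 1` (relative to the mean of `r_A`) of a function `P` with singular spectrum, or more
generally of a function whose generating function has its `L²` mass on small sets of angles, then
`r_A` is unbounded, even in mean square.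
-/

open Filter Topology MeasureTheory Finset

namespace Pool.Agent.Results.MP_12a1af_nt.SingularSpectrum

local instance twoPiPos : Fact (0 < 2 * Real.pi) := Fact.mk Real.two_pi_pos

/-- `r_A(n)`: the number of ordered pairs `(a, b) ∈ A × A` with `a + b = n`. -/
noncomputable def rep (A : Set ℕ) (n : ℕ) : ℕ :=
  Set.ncard {p : ℕ × ℕ | p.1 ∈ A ∧ p.2 ∈ A ∧ p.1 + p.2 = n}

/-- `elt A n` is the `n`-th element `a_n` (`n ≥ 1`) of the infinite set `A` listed increasingly. -/
noncomputable def elt (A : Set ℕ) (n : ℕ) : ℕ := Nat.nth (· ∈ A) (n - 1)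

/-- `P` has singular spectrum: the limits `lim_N (1/N) ∑_{n<N} P(n+k) P(n)`, `k ≥ 0`, exist and are
the Fourier coefficients `∫ e^{ikx} dσ(x)` of a finite measure `σ` on the circle `ℝ/2πℤ` that is
singular with respect to Lebesgue measure. -/
def SingSpec (P : ℕ → ℝ) : Prop :=
  ∃ σ : Measure (AddCircle (2 * Real.pi)), IsFiniteMeasure σ ∧
    Measure.MutuallySingular σ volume ∧
    ∀ k : ℕ, Tendsto (fun N : ℕ => (((∑ n ∈ range N, P (n + k) * P n) / N : ℝ) : ℂ)) atTop
      (𝓝 (∫ x, (fourier (k : ℤ) x : ℂ) ∂σ))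

/-- `P` has concentrated generating function: for every `ε > 0` there are `ρ < 1` arbitrarily close
to `1` and a measurable set `V` of angles of measure at most `ε` such that
`(1 - ρ) ∫_{(0,2π] ∖ V} |∑_n P(n) ρ^n e^{inθ}|² dθ ≤ ε`. -/
def Concentrated (P : ℕ → ℝ) : Prop :=
  ∀ ε : ℝ, 0 < ε → ∃ᶠ ρ : ℝ in 𝓝[<] 1, ∃ V : Set ℝ, MeasurableSet V ∧
    volume V ≤ ENNReal.ofReal ε ∧ (1 - ρ) * ∫ θ in Set.Ioc 0 (2 * Real.pi) \ V,
      ‖∑' n : ℕ, (P n : ℂ) * (ρ * Complex.exp (θ * Complex.I)) ^ n‖ ^ 2 ≤ ε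

theorem conc_iff (P : ℕ → ℝ) : Concentrated P ↔ Pool.Agent.H303R3.ET.Conc P := by
  have h : ∀ (ρ θ : ℝ), (ρ * Complex.exp (θ * Complex.I) : ℂ) = circleMap 0 ρ θ := by
    intro ρ θ
    rw [circleMap_zero]
  unfold Concentrated Pool.Agent.H303R3.ET.Conc
  simp_rw [h]

/-- (1) Let `A ⊆ ℕ` be infinite with `a_n ≤ C n²` for all `n ≥ 1`, let `P : ℕ → ℝ` have
concentrated generating function and let `κ < 1`.  If
`∑_{n<N} (r_A(n) - P(n))² ≤ κ ∑_{n<N} r_A(n)` for all large `N`, then `r_A` is unbounded; in fact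
`∑_{n<N} r_A(n)² > B N` for arbitrarily large `N`, for every `B`.

(2) Every `P` with singular spectrum has concentrated generating function. -/
theorem result :
    (∀ (A : Set ℕ) (C κ : ℝ) (P : ℕ → ℝ), A.Infinite →
      (∀ n : ℕ, 1 ≤ n → (elt A n : ℝ) ≤ C * (n : ℝ) ^ 2) → Concentrated P → κ < 1 →
      (∀ᶠ N : ℕ in atTop, ∑ n ∈ range N, ((rep A n : ℝ) - P n) ^ 2 ≤
        κ * ∑ n ∈ range N, (rep A n : ℝ)) →
      (∀ B : ℝ, ∃ᶠ N : ℕ in atTop, B * N < ∑ n ∈ range N, (rep A n : ℝ) ^ 2) ∧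
        ∀ K : ℕ, ∃ n : ℕ, K < rep A n) ∧
    (∀ P : ℕ → ℝ, SingSpec P → Concentrated P) := by
  constructor
  · intro A C κ P hA hC hP hκ hd
    have key : ∀ B : ℝ, ∃ᶠ N : ℕ in atTop, B * N < ∑ n ∈ range N, (rep A n : ℝ) ^ 2 := by
      intro B hcon
      refine Pool.Agent.H303R3.ET.sing_main (A := A) hA (C := C) (fun n => ?_) ((conc_iff P).mp hP) hκ
        (B := B) hd ?_
      · have h1 := hC (n + 1) (by omega)
        unfold elt at h1
        rw [Nat.add_sub_cancel] at h1
        push_cast at h1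
        exact h1
      · filter_upwards [hcon] with N hN
        exact not_lt.mp hN
    refine ⟨key, ?_⟩
    by_contra hcon
    push Not at hcon
    obtain ⟨K, hK⟩ := hcon
    obtain ⟨N, hN⟩ := (key ((K : ℝ) ^ 2)).exists
    have h2 : ∑ n ∈ range N, (rep A n : ℝ) ^ 2 ≤ ∑ n ∈ range N, (K : ℝ) ^ 2 := by
      apply sum_le_sum
      intro n _
      have : (rep A n : ℝ) ≤ K := by exact_mod_cast hK n
      gcongr
    rw [sum_const, card_range, nsmul_eq_mul] at h2
    linarith
  · rintro P ⟨σ, hfin, hσ, h⟩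
    rw [conc_iff]
    exact Pool.Agent.H303R3.ET.spec_conc (σ := σ) h hσ

end Pool.Agent.Results.MP_12a1af_nt.SingularSpectrum
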